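import Pool.Agent.H25.DP.Targets3

/-!
# Two dilations: the trace of Frobenius at primes with a prime ideal of degree one (DN2)
-/

set_option autoImplicit false

open NumberField
open scoped Pointwise

namespace Pool.Agent.H69.DP

open Pool.Agent.H25 Pool.Agent.H25.DL Pool.Agent.H25.DP

/-! ### Ramified primes (as in Pool/Agent/H77/MZ/SP.lean) -/

theorem exists_moved (R : ArtinRep) (g : R.K ≃ₐ[ℚ] R.K) (hg : g ≠ 1) :
    ∃ a : 𝓞 R.K, g • a ≠ a := by
  by_contra hc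
  push Not at hc
  apply hg
  ext x
  obtain ⟨a, b, hb, rfl⟩ := IsFractionRing.div_surjective (A := 𝓞 R.K) x
  have h1 : ∀ a : 𝓞 R.K, g (algebraMap (𝓞 R.K) R.K a) = algebraMap (𝓞 R.K) R.K a := by
    intro a
    have h2 := congrArg (algebraMap (𝓞 R.K) R.K) (hc a)
    have h3 : algebraMap (𝓞 R.K) R.K (g • a) = g • algebraMap (𝓞 R.K) R.K a :=
      algebraMap.coe_smul' g a R.K
    rw [h3] at h2
    exact h2
  rw [map_div₀, h1, h1]
  rfl

theorem ram_finite (R : ArtinRep) : {p : Nat.Primes | R.In p ≠ ⊥}.Finite := by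
  classical
  have : Finite (R.K ≃ₐ[ℚ] R.K) := inferInstance
  -- one non-trivial element
  have h1 : ∀ g : R.K ≃ₐ[ℚ] R.K, g ≠ 1 → {p : Nat.Primes | g ∈ R.In p}.Finite := by
    intro g hg
    obtain ⟨a, ha⟩ := exists_moved R g hg
    set x : 𝓞 R.K := g • a - a with hx
    have hx0 : x ≠ 0 := sub_ne_zero.2 ha
    set n : ℕ := Ideal.absNorm (Ideal.span {x}) with hn
    have hn0 : n ≠ 0 := by
      rw [hn, Ne, Ideal.absNorm_eq_zero_iff, Ideal.span_singleton_eq_bot]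
      exact hx0
    have h2 : ∀ p : Nat.Primes, g ∈ R.In p → (p : ℕ) ≤ n := by
      intro p hp
      have h3 : x ∈ R.P p := by
        have h4 : ∀ y : 𝓞 R.K, g • y - y ∈ R.P p := hp
        exact h4 a
      have h5 : (n : 𝓞 R.K) ∈ R.P p := by
        have h6 : (n : 𝓞 R.K) ∈ Ideal.span {x} := Ideal.absNorm_mem _
        have h7 : Ideal.span {x} ≤ R.P p := by
          rw [Ideal.span_singleton_le_iff_mem]
          exact h3
        exact h7 h6
      have h7 : (p : ℕ) ∣ n := by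
        by_contra hnd
        have hcop : IsCoprime ((p : ℕ) : ℤ) (n : ℤ) := by
          rw [Int.isCoprime_iff_nat_coprime]
          simp only [Int.natAbs_natCast]
          exact (Nat.Prime.coprime_iff_not_dvd p.2).2 hnd
        obtain ⟨u, v, huv⟩ := hcop
        have h8 : (1 : 𝓞 R.K) ∈ R.P p := by
          have h9 : ((u * ((p : ℕ) : ℤ) + v * (n : ℤ) : ℤ) : 𝓞 R.K) = 1 := by rw [huv]; simp
          rw [← h9]
          push_cast
          exact (R.P p).add_mem ((R.P p).mul_mem_left _ (R.P_mem p)) ((R.P p).mul_mem_left _ h5)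
        exact (R.P_prime p).ne_top ((Ideal.eq_top_iff_one _).2 h8)
      exact Nat.le_of_dvd (Nat.pos_of_ne_zero hn0) h7
    refine Set.Finite.subset (s := (fun p : Nat.Primes => (p : ℕ)) ⁻¹' (Set.Iic n)) ?_ ?_
    · exact (Set.finite_Iic _).preimage Subtype.val_injective.injOn
    · intro p hp
      exact h2 p hp
  have h2 : {p : Nat.Primes | R.In p ≠ ⊥} ⊆ ⋃ g ∈ {g : R.K ≃ₐ[ℚ] R.K | g ≠ 1},
      {p : Nat.Primes | g ∈ R.In p} := by
    intro p hp
    have hp' : R.In p ≠ ⊥ := hp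
    obtain ⟨g, hg⟩ := Subgroup.ne_bot_iff_exists_ne_one.1 hp'
    simp only [Set.mem_iUnion]
    exact ⟨(g : R.K ≃ₐ[ℚ] R.K), fun h => hg (Subtype.ext h), g.2⟩
  exact (Set.Finite.biUnion (Set.toFinite _) h1).subset h2

/-! ### The residue field of a prime ideal of degree one -/

theorem liesOver (R : ArtinRep) (p : Nat.Primes) :
    (R.P p).LiesOver (Ideal.span {((p : ℕ) : ℤ)}) := by
  have := R.P_prime p
  refine ⟨?_⟩
  have hmax : (Ideal.span {((p : ℕ) : ℤ)}).IsMaximal :=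
    PrincipalIdealRing.isMaximal_of_irreducible (Nat.prime_iff_prime_int.1 p.2).irreducible
  refine hmax.eq_of_le (Ideal.IsPrime.ne_top inferInstance) ?_
  rw [Ideal.span_singleton_le_iff_mem]
  show algebraMap ℤ (𝓞 R.K) ((p : ℕ) : ℤ) ∈ R.P p
  simpa using R.P_mem p

theorem card_quot {L : Type} [Field L] [NumberField L] {p : ℕ} (Q : Ideal (𝓞 L)) [Q.IsPrime]
    [Q.LiesOver (Ideal.span {(p : ℤ)})] : Nat.card (𝓞 L ⧸ Q) = p ^ Q.inertiaDeg ℤ := by
  have h1 := Ideal.absNorm_pow_inertiaDeg (Ideal.span {(p : ℤ)}) Q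
  rw [Ideal.absNorm_span_singleton] at h1
  simp only [Algebra.norm_self, MonoidHom.id_apply, Int.natAbs_natCast] at h1
  rw [h1, Ideal.absNorm_apply, Submodule.cardQuot_apply]

theorem fr_mem (R : ArtinRep) (p : Nat.Primes) (hs : HK.spf R.K p 1 ≠ 0) : R.Fr p ∈ R.In p := by
  classical
  have hp : Fact (p : ℕ).Prime := ⟨p.2⟩
  have hPp := R.P_prime p
  have hPo := liesOver R p
  -- a prime ideal of degree one
  have h1 : ∃ Q ∈ Ideal.primesOver (Ideal.span {((p : ℕ) : ℤ)}) (𝓞 R.K), Q.inertiaDeg ℤ = 1 := by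
    by_contra hc
    push Not at hc
    apply hs
    unfold HK.spf
    refine finsum_mem_eq_zero_of_forall_eq_zero fun Q hQ => ?_
    rw [if_neg]
    intro hd
    exact hc Q hQ (Nat.dvd_one.1 hd)
  obtain ⟨Q, hQ, hQ1⟩ := h1
  have hQp : Q.IsPrime := hQ.1
  have hQo : Q.LiesOver (Ideal.span {((p : ℕ) : ℤ)}) := hQ.2
  have h2 : (R.P p).inertiaDeg ℤ = 1 := by
    rw [← hQ1]
    exact Ideal.inertiaDeg_eq_of_isGaloisGroup (Ideal.span {((p : ℕ) : ℤ)}) (R.P p) Q
      (R.K ≃ₐ[ℚ] R.K)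
  have h3 : Nat.card (𝓞 R.K ⧸ R.P p) = p := by
    have := card_quot (p := p) (R.P p)
    rw [this, h2, pow_one]
  have hmaxZ : (Ideal.span {((p : ℕ) : ℤ)}).IsMaximal :=
    PrincipalIdealRing.isMaximal_of_irreducible (Nat.prime_iff_prime_int.1 p.2).irreducible
  have hmax : (R.P p).IsMaximal :=
    Ideal.IsMaximal.of_liesOver_isMaximal (R.P p) (Ideal.span {((p : ℕ) : ℤ)})
  letI := Ideal.Quotient.field (R.P p)
  have hfin : Finite (𝓞 R.K ⧸ R.P p) := Nat.finite_of_card_ne_zero (by rw [h3]; exact p.2.ne_zero)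
  letI := Fintype.ofFinite (𝓞 R.K ⧸ R.P p)
  have h4 : ∀ x : 𝓞 R.K ⧸ R.P p, x ^ (p : ℕ) = x := by
    intro x
    have := FiniteField.pow_card x
    rwa [← Nat.card_eq_fintype_card, h3] at this
  show ∀ x : 𝓞 R.K, R.Fr p • x - x ∈ R.P p
  intro x
  have h5 : R.Fr p • x - x = (R.Fr p • x - x ^ (p : ℕ)) + (x ^ (p : ℕ) - x) := by ring
  rw [h5]
  refine (R.P p).add_mem (R.Fr_spec p x) ?_
  rw [← Ideal.Quotient.eq_zero_iff_mem, map_sub, map_pow, h4, sub_self]

theorem dn2 : T_DN2 := by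
  classical
  intro R
  refine ⟨(ram_finite R).toFinset.image (fun p : Nat.Primes => (p : ℕ)), ?_⟩
  intro p hp hs
  have hI : R.In p = ⊥ := by
    by_contra h
    apply hp
    rw [Finset.mem_image]
    exact ⟨p, (Set.Finite.mem_toFinset _).2 h, rfl⟩
  have hFr : R.Fr p = 1 := by
    have := fr_mem R p hs
    rwa [hI, Subgroup.mem_bot] at this
  have hu : Unique (⊥ : Subgroup (R.K ≃ₐ[ℚ] R.K)) := inferInstance
  have hdef : ((default : (⊥ : Subgroup (R.K ≃ₐ[ℚ] R.K))) : R.K ≃ₐ[ℚ] R.K) = 1 :=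
    Subgroup.mem_bot.1 (default : (⊥ : Subgroup (R.K ≃ₐ[ℚ] R.K))).2
  have hav : R.avg (R.In p) = 1 := by
    rw [hI]
    unfold ArtinRep.avg
    rw [finsum_eq_sum_of_fintype, Fintype.sum_unique, hdef]
    simp
  unfold ArtinRep.fr
  rw [hav, hFr, map_one, mul_one, LinearMap.trace_one]
  rfl

end Pool.Agent.H69.DP
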