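import Pool.Agent.H25.DP.Targets3
import Pool.Agent.H25.DL.CO2

/-!
# Two dilations: the core (CO5)
-/

set_option autoImplicit false

open Complex MeasureTheory Set Filter Topology

namespace Pool.Agent.H69.DP

open Pool.Agent.H25.DL Pool.Agent.H25.DP

variable {ι : Type} [Fintype ι]

lemma continuous_gx (β ξ : ℝ) : Continuous (gx β ξ) := by
  unfold gx
  exact (by fun_prop : Continuous fun z : ℂ => cexp (-(z * ξ))).mul (continuous_gs β)

lemma continuousOn_KX (f : ι → Fac) {Y : ℂ → ℂ} {d t₀ : ℝ} (hP : Phase Y d t₀) (β ξ R : ℝ)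
    (hR : 0 ≤ R) (j : ι → ℕ) : ContinuousOn (KX f Y β ξ R j) (Ici (t₀ + R)) := by
  have hY : Continuous fun v : ℝ => Y (1 / 2 + (max v t₀ : ℝ) * I) := by
    rw [continuous_iff_continuousAt]
    intro v
    have h1 : ContinuousAt Y (1 / 2 + (max v t₀ : ℝ) * I) := by
      refine (hP.diff _ ?_).continuousAt
      simp
    have h2 : Continuous fun v : ℝ => (1 / 2 + ((max v t₀ : ℝ) : ℂ) * I) := by fun_prop
    exact ContinuousAt.comp (f := fun v : ℝ => (1 / 2 + ((max v t₀ : ℝ) : ℂ) * I)) (g := Y) h1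
      h2.continuousAt
  have hc : Continuous (Function.uncurry fun u y : ℝ =>
      Pj f j (1 / 2 + (u + y : ℝ) * I) * Y (1 / 2 + (max (u + y) t₀ : ℝ) * I) *
        gx β ξ (y * I)) := by
    unfold Function.uncurry
    refine (Continuous.mul ?_ ?_).mul ?_
    · exact (continuous_Pj f j).comp (by fun_prop)
    · exact hY.comp (f := fun p : ℝ × ℝ => p.1 + p.2) (by fun_prop)
    · exact (continuous_gx β ξ).comp (by fun_prop)
  have h3 := intervalIntegral.continuous_parametric_intervalIntegral_of_continuous' (μ := volume)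
    hc (-R) R
  refine h3.continuousOn.congr fun u hu => ?_
  unfold KX
  refine intervalIntegral.integral_congr fun y hy => ?_
  rw [uIcc_of_le (by linarith)] at hy
  have : max (u + y) t₀ = u + y := by
    apply max_eq_left
    have := hy.1
    have := mem_Ici.1 hu
    linarith
  simp only [this]

lemma continuous_LX (f : ι → Fac) (β ξ R : ℝ) (j : ι → ℕ) : Continuous (LX f β ξ R j) := by
  have hc : Continuous (Function.uncurry fun u y : ℝ =>
      (starRingEnd ℂ) (Pj f j (1 / 2 + (u + y : ℝ) * I)) * gx β ξ (y * I)) := by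
    unfold Function.uncurry
    refine Continuous.mul ?_ ?_
    · exact continuous_conj.comp ((continuous_Pj f j).comp (by fun_prop))
    · exact (continuous_gx β ξ).comp (by fun_prop)
  exact intervalIntegral.continuous_parametric_intervalIntegral_of_continuous' (μ := volume)
    hc (-R) R

lemma continuous_TP (X : ℕ) (ρ : ℕ → ℂ) : Continuous (TP X ρ) := by
  unfold TP
  exact continuous_finsetSum _ fun p _ => continuous_const.mul (continuous_en p)

lemma norm_TP_le (X : ℕ) (ρ : ℕ → ℂ) (hX : 0 < (X : ℝ))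
    (hρ : ∀ p, ‖ρ p‖ ≤ (X : ℝ) ^ (-(1 / 2) : ℝ)) (u : ℝ) : ‖TP X ρ u‖ ≤ (X : ℝ) ^ (1 / 2 : ℝ) := by
  unfold TP
  calc ‖∑ p ∈ Finset.Ico X (2 * X), ρ p * en p u‖
      ≤ ∑ p ∈ Finset.Ico X (2 * X), (X : ℝ) ^ (-(1 / 2) : ℝ) := by
        refine norm_sum_le_of_le _ fun p _ => ?_
        rw [norm_mul, norm_en, mul_one]
        exact hρ p
    _ = X * (X : ℝ) ^ (-(1 / 2) : ℝ) := by
        rw [Finset.sum_const, Nat.card_Ico, nsmul_eq_mul]
        congr 2
        omega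
    _ = (X : ℝ) ^ (1 / 2 : ℝ) := by
        nth_rw 1 [← Real.rpow_one (X : ℝ)]
        rw [← Real.rpow_add hX]
        norm_num

/-- The comparison of the two sides on a window. -/
lemma compare {a b δ Q A₁ A₂ A₃ : ℝ} (hab : a ≤ b) {w SK SL P : ℝ → ℂ}
    (hw : ContinuousOn w (Icc a b)) (hSK : ContinuousOn SK (Icc a b))
    (hSL : ContinuousOn SL (Icc a b)) (hP : ContinuousOn P (Icc a b)) {G : Set ℝ}
    (hGm : MeasurableSet G) (hG : G ⊆ Icc a b) (hδ : 0 ≤ δ) (hQ : 0 ≤ Q)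
    (h1 : ∀ u ∈ Icc a b, ‖w u‖ ≤ 1) (h2 : ∀ u ∈ G, ‖SL u - SK u‖ ≤ δ)
    (h3 : ∀ u ∈ Icc a b, ‖P u‖ ≤ Q) (h4 : ∫ u in Icc a b \ G, ‖SL u‖ * ‖P u‖ ≤ A₁)
    (h5 : ∫ u in Icc a b \ G, ‖SK u‖ * ‖P u‖ ≤ A₂)
    (h6 : ‖∫ u in a..b, w u * SK u * P u‖ ≤ A₃) :
    ‖∫ u in a..b, w u * SL u * P u‖ ≤ A₃ + δ * Q * (b - a) + (A₁ + A₂) := by
  have hfin : volume (Icc a b) ≠ ⊤ := by rw [Real.volume_Icc]; exact ENNReal.ofReal_ne_top
  have hEs : Icc a b \ G ⊆ Icc a b := sdiff_subset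
  have hEm : MeasurableSet (Icc a b \ G) := measurableSet_Icc.diff hGm
  have c1 : ContinuousOn (fun u => w u * SK u * P u) (Icc a b) := (hw.mul hSK).mul hP
  have c2 : ContinuousOn (fun u => w u * SL u * P u) (Icc a b) := (hw.mul hSL).mul hP
  have i1 : IntervalIntegrable (fun u => w u * SK u * P u) volume a b := by
    apply ContinuousOn.intervalIntegrable
    rwa [uIcc_of_le hab]
  have i2 : IntervalIntegrable (fun u => w u * SL u * P u) volume a b := by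
    apply ContinuousOn.intervalIntegrable
    rwa [uIcc_of_le hab]
  have e1 : ∫ u in a..b, w u * SL u * P u = (∫ u in a..b, w u * SK u * P u) +
      ∫ u in a..b, (w u * SL u * P u - w u * SK u * P u) := by
    rw [intervalIntegral.integral_sub i2 i1]
    ring
  have c3 : ContinuousOn (fun u => w u * SL u * P u - w u * SK u * P u) (Icc a b) := c2.sub c1
  have j3 : IntegrableOn (fun u => w u * SL u * P u - w u * SK u * P u) (Icc a b) :=
    c3.integrableOn_Icc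
  have e2 : ∫ u in a..b, (w u * SL u * P u - w u * SK u * P u) =
      (∫ u in G, (w u * SL u * P u - w u * SK u * P u)) +
        ∫ u in Icc a b \ G, (w u * SL u * P u - w u * SK u * P u) := by
    rw [intervalIntegral.integral_of_le hab, ← integral_Icc_eq_integral_Ioc]
    have h7 : Icc a b = G ∪ (Icc a b \ G) := (union_sdiff_cancel hG).symm
    nth_rw 1 [h7]
    exact setIntegral_union disjoint_sdiff_right hEm (j3.mono_set hG) (j3.mono_set hEs)
  have b1 : ‖∫ u in G, (w u * SL u * P u - w u * SK u * P u)‖ ≤ δ * Q * (b - a) := by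
    have hle : ∀ u ∈ G, ‖w u * SL u * P u - w u * SK u * P u‖ ≤ δ * Q := by
      intro u hu
      have e : w u * SL u * P u - w u * SK u * P u = w u * (SL u - SK u) * P u := by ring
      rw [e, norm_mul, norm_mul]
      have k1 := h1 u (hG hu)
      have k2 := h2 u hu
      have k3 := h3 u (hG hu)
      calc ‖w u‖ * ‖SL u - SK u‖ * ‖P u‖ ≤ 1 * δ * Q := by gcongr
        _ = δ * Q := by ring
    have hGfin : volume G < ⊤ := (measure_mono hG).trans_lt (lt_top_iff_ne_top.2 hfin)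
    refine (norm_setIntegral_le_of_norm_le_const hGfin hle).trans ?_
    have hvol : volume.real G ≤ b - a := by
      have := measureReal_mono hG hfin
      rwa [Real.volume_real_Icc_of_le hab] at this
    have : 0 ≤ δ * Q := mul_nonneg hδ hQ
    gcongr
  have c4 : ContinuousOn (fun u => ‖SL u‖ * ‖P u‖) (Icc a b) := hSL.norm.mul hP.norm
  have c5 : ContinuousOn (fun u => ‖SK u‖ * ‖P u‖) (Icc a b) := hSK.norm.mul hP.norm
  have b2 : ‖∫ u in Icc a b \ G, (w u * SL u * P u - w u * SK u * P u)‖ ≤ A₁ + A₂ := by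
    refine (norm_integral_le_integral_norm _).trans ?_
    have hle : ∫ u in Icc a b \ G, ‖w u * SL u * P u - w u * SK u * P u‖ ≤
        ∫ u in Icc a b \ G, (‖SL u‖ * ‖P u‖ + ‖SK u‖ * ‖P u‖) := by
      refine setIntegral_mono_on (j3.mono_set hEs).norm ?_ hEm ?_
      · exact (c4.integrableOn_Icc.mono_set hEs).add (c5.integrableOn_Icc.mono_set hEs)
      · intro u hu
        have k1 := h1 u (hEs hu)
        have e : w u * SL u * P u - w u * SK u * P u = w u * ((SL u - SK u) * P u) := by ring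
        rw [e, norm_mul, norm_mul]
        have k2 := norm_sub_le (SL u) (SK u)
        have k3 := norm_nonneg (P u)
        calc ‖w u‖ * (‖SL u - SK u‖ * ‖P u‖) ≤ 1 * ((‖SL u‖ + ‖SK u‖) * ‖P u‖) := by gcongr
          _ = _ := by ring
    refine hle.trans ?_
    rw [integral_add (c4.integrableOn_Icc.mono_set hEs) (c5.integrableOn_Icc.mono_set hEs)]
    exact add_le_add h4 h5
  rw [e1, e2]
  refine (norm_add_le _ _).trans ?_
  have := norm_add_le (∫ u in G, (w u * SL u * P u - w u * SK u * P u))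
    (∫ u in Icc a b \ G, (w u * SL u * P u - w u * SK u * P u))
  linarith

omit [Fintype ι] in
/-- sums over the blocks -/
lemma sum_blocks {a b A : ℝ} {E : Set ℝ} (hEm : MeasurableSet E) (hE : E ⊆ Icc a b)
    (s : Finset (ι → ℕ)) (F : (ι → ℕ) → ℝ → ℂ) (P : ℝ → ℂ)
    (hF : ∀ j, ContinuousOn (F j) (Icc a b)) (hP : ContinuousOn P (Icc a b))
    (h : ∀ j ∈ s, ∫ u in E, ‖F j u‖ * ‖P u‖ ≤ A) :
    ∫ u in E, ‖∑ j ∈ s, F j u‖ * ‖P u‖ ≤ s.card * A := by
  have hc : ∀ j, ContinuousOn (fun u => ‖F j u‖ * ‖P u‖) (Icc a b) := fun j =>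
    (hF j).norm.mul hP.norm
  calc ∫ u in E, ‖∑ j ∈ s, F j u‖ * ‖P u‖
      ≤ ∫ u in E, ∑ j ∈ s, ‖F j u‖ * ‖P u‖ := by
        refine setIntegral_mono_on ?_ ?_ hEm ?_
        · have : ContinuousOn (fun u => ‖∑ j ∈ s, F j u‖ * ‖P u‖) (Icc a b) :=
            (continuousOn_finsetSum _ fun j _ => hF j).norm.mul hP.norm
          exact this.integrableOn_Icc.mono_set hE
        · exact integrable_finsetSum _ fun j _ => (hc j).integrableOn_Icc.mono_set hE
        · intro u _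
          rw [← Finset.sum_mul]
          exact mul_le_mul_of_nonneg_right (norm_sum_le _ _) (norm_nonneg _)
    _ = ∑ j ∈ s, ∫ u in E, ‖F j u‖ * ‖P u‖ :=
        integral_finsetSum _ fun j _ => (hc j).integrableOn_Icc.mono_set hE
    _ ≤ ∑ _j ∈ s, A := Finset.sum_le_sum h
    _ = s.card * A := by rw [Finset.sum_const, nsmul_eq_mul]

/-- (CO5) -/
theorem co5 (h1 : T_EXX) (h2 : T_SHX) (h3 : T_LLX) (h4 : T_BIL) (h5 : T_BX2) (h6 : T_RDX)
    (h7 : T_DLB) (h8 : T_CN) : T_CO5 := by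
  intro ι _ f Y d t₀ r ε hY hd1 hd2 hr hfr hden hε
  have hr1 : ∀ l, 1 ≤ (f l).r := by
    intro l
    rcases hfr l with h | h
    · rw [h]; linarith
    · rw [h]
  obtain ⟨η₀, hη₀, hBIL⟩ := h4 ι f Y d t₀ r hY hd1 hd2 hr hfr
  obtain ⟨η, hη⟩ : ∃ η : ℝ, η = min η₀ (1 / 12) := ⟨_, rfl⟩
  have hη0 : 0 < η := by rw [hη]; exact lt_min hη₀ (by norm_num)
  have hη1 : η ≤ η₀ := by rw [hη]; exact min_le_left _ _
  have hη2 : η ≤ 1 / 12 := by rw [hη]; exact min_le_right _ _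
  obtain ⟨x₁, hx₁⟩ : ∃ x : ℝ, x = d - 1 + η / 2 := ⟨_, rfl⟩
  obtain ⟨x₂, hx₂⟩ : ∃ x : ℝ, x = d - 1 + η := ⟨_, rfl⟩
  obtain ⟨D, hD⟩ : ∃ x : ℝ, x = 1 - η / 4 := ⟨_, rfl⟩
  obtain ⟨D', hD'⟩ : ∃ x : ℝ, x = 11 / 24 := ⟨(11 / 24 : ℝ), rfl⟩
  have hx1p : 0 < x₁ := by rw [hx₁]; linarith
  have hx12 : x₁ < x₂ := by rw [hx₁, hx₂]; linarith
  have hx2p : 0 < x₂ := by linarith
  have hx2D : x₂ < D' := by rw [hx₂, hD']; linarith
  have hx2h : x₂ < 1 / 2 := by rw [hx₂]; linarith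
  obtain ⟨β₁, hβ₁, hEXX⟩ := h1 ι f Y d t₀ x₁ D hY hx1p (by rw [hx₁]; linarith)
    (by rw [hx₁, hD]; linarith) hr1
  obtain ⟨β₂, hβ₂, hLLX⟩ := h3 ι f x₂ D' hx2p hx2D hr1
  refine ⟨max β₁ β₂, lt_max_of_lt_left hβ₁, fun β hβ C => ?_⟩
  have hβ0 : 0 < β := hβ₁.trans_le ((le_max_left _ _).trans hβ)
  obtain ⟨T₁, hEXX⟩ := hEXX β ((le_max_left _ _).trans hβ)
  obtain ⟨T₂, hLLX⟩ := hLLX β ((le_max_right _ _).trans hβ)
  obtain ⟨T₃, hSHX⟩ := h2 ι f Y β C x₂ hβ0 hx2p.le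
  obtain ⟨c₁, T₄, hc₁, hBIL⟩ := hBIL η hη0 hη1
  obtain ⟨T₅, hRDX⟩ := h6 ι f Y d t₀ β hβ0 hY
  obtain ⟨c₂, hc₂, hBX⟩ := h5 ι f Y d t₀ r D x₂ ε hY hr hfr (by rw [hD]; linarith)
    (by rw [hD]; linarith) hx2p hx2h hε
  obtain ⟨c₃, hc₃, hBX'⟩ := h5 ι f Y d t₀ r D' x₂ ε hY hr hfr (by rw [hD']; norm_num)
    (by rw [hD']; norm_num) hx2p hx2h hε
  obtain ⟨T₆, hBX⟩ := hBX β hβ0
  obtain ⟨T₇, hBX'⟩ := hBX' β hβ0
  obtain ⟨c, hc⟩ : ∃ c : ℝ, c = min (min c₁ c₂) (min c₃ (1 / 4)) := ⟨_, rfl⟩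
  have hc0 : 0 < c := by
    rw [hc]; exact lt_min (lt_min hc₁ hc₂) (lt_min hc₃ (by norm_num))
  have hcc1 : c ≤ c₁ := by rw [hc]; exact (min_le_left _ _).trans (min_le_left _ _)
  have hcc2 : c ≤ c₂ := by rw [hc]; exact (min_le_left _ _).trans (min_le_right _ _)
  have hcc3 : c ≤ c₃ := by rw [hc]; exact (min_le_right _ _).trans (min_le_left _ _)
  have hcc4 : c ≤ 1 / 4 := by rw [hc]; exact (min_le_right _ _).trans (min_le_right _ _)
  obtain ⟨T₈, hDLB⟩ := h7 ι f r x₁ x₂ D' β (c / 2) hr hfr hden hx1p hx12 hx2D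
    (by rw [hD']; norm_num) hβ0 (by linarith)
  obtain ⟨C₁, hC₁, hCN⟩ := h8 ι f 1 D (by rw [hD]; linarith) one_pos hr1
  obtain ⟨C₂, hC₂, hCN'⟩ := h8 ι f 1 D' (by rw [hD']; norm_num) one_pos hr1
  obtain ⟨T₉, hT₉⟩ := tendsto_aux2 C₁ C₁ (1 - c) (1 - c / 2) (by linarith)
  obtain ⟨T₁₀, hT₁₀⟩ := tendsto_aux2 C₂ C₂ (1 - c) (1 - c / 2) (by linarith)
  obtain ⟨T₁₁, hT₁₁⟩ := tendsto_aux2 3 1 (1 - c) (1 - c / 2) (by linarith)
  have hlog := Real.tendsto_log_atTop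
  have hTlog : ∀ᶠ T : ℝ in atTop, t₀ + Real.log T ≤ T := by
    have h1 : (fun T : ℝ => t₀ + Real.log T) =o[atTop] fun T : ℝ => T := by
      refine Asymptotics.IsLittleO.add ?_ Real.isLittleO_log_id_atTop
      exact Asymptotics.isLittleO_const_left.2 (Or.inr (tendsto_norm_atTop_atTop))
    have h2 := h1.bound zero_lt_one
    filter_upwards [h2, eventually_ge_atTop (0 : ℝ)] with T hT hT0
    rw [one_mul, Real.norm_eq_abs, Real.norm_eq_abs, abs_of_nonneg hT0] at hT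
    exact (le_abs_self _).trans hT
  obtain ⟨T₀, hT₀⟩ := eventually_atTop.1 (hTlog.and ((hlog.eventually_ge_atTop 1).and
    ((eventually_ge_atTop T₁).and ((eventually_ge_atTop T₂).and ((eventually_ge_atTop T₃).and
      ((eventually_ge_atTop T₄).and ((eventually_ge_atTop T₅).and ((eventually_ge_atTop T₆).and
        ((eventually_ge_atTop T₇).and ((eventually_ge_atTop T₈).and ((eventually_ge_atTop T₉).and
          ((eventually_ge_atTop T₁₀).and ((eventually_ge_atTop T₁₁).and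
            (eventually_ge_atTop 3))))))))))))))
  refine ⟨T₀, fun T hT G hGm hG hclean => ?_⟩
  obtain ⟨hTl, hl1, hT1, hT2, hT3, hT4, hT5, hT6, hT7, hT8, hT9, hT10, hT11, hT33⟩ := hT₀ T hT
  have hT0 : 0 < T := by linarith
  have hT1' : 1 ≤ T := by linarith
  by_contra hcon
  push Not at hcon
  have hwin : 5 * T / 4 + T / 2 = 7 * T / 4 := by ring
  have hsub : Icc (5 * T / 4) (7 * T / 4) ⊆ Icc T (2 * T) :=
    Icc_subset_Icc (by linarith) (by linarith)
  obtain ⟨X, ρ, hX1, hX2, hρ, hlow⟩ := hDLB T hT8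
  rw [hwin] at hlow
  have hXpos : 0 < (X : ℝ) := (Real.rpow_pos_of_pos hT0 _).trans_le hX1
  have hX1' : (1 : ℝ) ≤ X := by
    have h0 : 0 < X := by exact_mod_cast hXpos
    exact_mod_cast h0
  -- the size of log X
  have hξ1 : x₁ * Real.log T ≤ Real.log X := by
    rw [← Real.log_rpow hT0]
    exact Real.log_le_log (Real.rpow_pos_of_pos hT0 _) hX1
  have hξ2 : Real.log X ≤ x₂ * Real.log T := by
    rw [← Real.log_rpow hT0]
    exact Real.log_le_log hXpos hX2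
  have hξ0 : 0 ≤ Real.log X := Real.log_nonneg hX1'
  obtain ⟨ξ, hξ⟩ : ∃ ξ : ℝ, ξ = Real.log X := ⟨_, rfl⟩
  rw [← hξ] at hξ1 hξ2 hξ0 hlow
  obtain ⟨E, hE⟩ : ∃ E : Set ℝ, E = Icc (5 * T / 4) (7 * T / 4) \ G := ⟨_, rfl⟩
  have hEm : MeasurableSet E := by rw [hE]; exact measurableSet_Icc.diff hGm
  have hEs : E ⊆ Icc (5 * T / 4) (7 * T / 4) := by rw [hE]; exact sdiff_subset
  rw [← hE] at hcon
  -- continuity
  have cK : ∀ j : ι → ℕ, ContinuousOn (KX f Y β ξ (Real.log T) j) (Icc (5 * T / 4) (7 * T / 4)) :=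
    fun j => (continuousOn_KX f hY β ξ (Real.log T) (by linarith) j).mono fun u hu =>
      mem_Ici.2 (hTl.trans (hsub hu).1)
  have cL : ∀ j : ι → ℕ, ContinuousOn (LX f β ξ (Real.log T) j) (Icc (5 * T / 4) (7 * T / 4)) :=
    fun j => (continuous_LX f β ξ (Real.log T) j).continuousOn
  have cP : ContinuousOn (TP X ρ) (Icc (5 * T / 4) (7 * T / 4)) := (continuous_TP X ρ).continuousOn
  have cw : Continuous (fun u : ℝ => (om ((u - 5 * T / 4) / (T / 2)) : ℂ)) := by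
    exact continuous_ofReal.comp (continuous_om.comp (by fun_prop))
  -- number of blocks
  have hN := (hCN T hT33).1
  have hN' := (hCN' T hT33).1
  have hpow : ∀ c' : ℝ, c ≤ c' → T ^ (1 - c') ≤ T ^ (1 - c) := fun c' hc' =>
    Real.rpow_le_rpow_of_exponent_le hT1' (by linarith)
  have hTc : 0 < T ^ (1 - c) := Real.rpow_pos_of_pos hT0 _
  have hTc2 : 0 < T ^ (1 - c / 2) := Real.rpow_pos_of_pos hT0 _
  -- the three bounds
  have hA1 : ∫ u in E, ‖∑ j ∈ mains f 1 D' T, LX f β ξ (Real.log T) j u‖ * ‖TP X ρ u‖ ≤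
      T ^ (1 - c / 2) / 16 := by
    refine (sum_blocks hEm hEs (mains f 1 D' T) (fun j => LX f β ξ (Real.log T) j) (TP X ρ) cL cP
      (A := T ^ (1 - c)) ?_).trans ?_
    · intro j hj
      exact ((hBX' T hT7 j hj X ρ ξ hX2 hρ E hEm (hEs.trans hsub) hcon.le).2).trans (hpow _ hcc3)
    · refine le_trans ?_ (hT₁₀ T hT10)
      exact mul_le_mul_of_nonneg_right hN' hTc.le
  have hA2 : ∫ u in E, ‖∑ j ∈ mains f 1 D T, KX f Y β ξ (Real.log T) j u‖ * ‖TP X ρ u‖ ≤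
      T ^ (1 - c / 2) / 16 := by
    refine (sum_blocks hEm hEs (mains f 1 D T) (fun j => KX f Y β ξ (Real.log T) j) (TP X ρ) cK cP
      (A := T ^ (1 - c)) ?_).trans ?_
    · intro j hj
      exact ((hBX T hT6 j hj X ρ ξ hX2 hρ E hEm (hEs.trans hsub) hcon.le).1).trans (hpow _ hcc2)
    · refine le_trans ?_ (hT₉ T hT9)
      exact mul_le_mul_of_nonneg_right hN hTc.le
  have hA3 : ‖∫ u in (5 * T / 4)..(7 * T / 4), (om ((u - 5 * T / 4) / (T / 2)) : ℂ) *
      (∑ j ∈ mains f 1 D T, KX f Y β ξ (Real.log T) j u) * TP X ρ u‖ ≤ T ^ (1 - c / 2) / 16 := by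
    have e1 : ∫ u in (5 * T / 4)..(7 * T / 4), (om ((u - 5 * T / 4) / (T / 2)) : ℂ) *
        (∑ j ∈ mains f 1 D T, KX f Y β ξ (Real.log T) j u) * TP X ρ u =
        ∑ j ∈ mains f 1 D T, ∫ u in (5 * T / 4)..(7 * T / 4),
          (om ((u - 5 * T / 4) / (T / 2)) : ℂ) * KX f Y β ξ (Real.log T) j u * TP X ρ u := by
      rw [← intervalIntegral.integral_finsetSum]
      · refine intervalIntegral.integral_congr fun u _ => ?_
        simp only [Finset.mul_sum, Finset.sum_mul]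
      · intro j _
        apply ContinuousOn.intervalIntegrable
        rw [uIcc_of_le (by linarith)]
        exact (cw.continuousOn.mul (cK j)).mul cP
    rw [e1]
    refine le_trans ?_ (hT₉ T hT9)
    calc ‖∑ j ∈ mains f 1 D T, ∫ u in (5 * T / 4)..(7 * T / 4),
          (om ((u - 5 * T / 4) / (T / 2)) : ℂ) * KX f Y β ξ (Real.log T) j u * TP X ρ u‖
        ≤ ∑ _j ∈ mains f 1 D T, T ^ (1 - c) := by
          refine norm_sum_le_of_le _ fun j hj => ?_
          have h9 := hRDX T hT5 j X ρ ξ (5 * T / 4) (T / 2) (T ^ (1 - c₁)) (by linarith)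
            (by linarith) (by linarith) (fun y hy => by
              rw [hD] at hj
              exact hBIL T hT4 j hj X ρ y (by rw [← hx₂]; exact hX2) hρ hy)
          rw [hwin] at h9
          exact h9.trans (hpow _ hcc1)
      _ = ((mains f 1 D T).card : ℝ) * T ^ (1 - c) := by rw [Finset.sum_const, nsmul_eq_mul]
      _ ≤ _ := mul_le_mul_of_nonneg_right hN hTc.le
  -- clean heights
  have hclose : ∀ u ∈ G, ‖(∑ j ∈ mains f 1 D' T, LX f β ξ (Real.log T) j u) -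
      ∑ j ∈ mains f 1 D T, KX f Y β ξ (Real.log T) j u‖ ≤ 3 * T ^ (-(1 / 2) : ℝ) := by
    intro u hu
    have hu' := hsub (hG hu)
    have k1 := hEXX T hT1 u hu' ξ hξ1
    have k2 := hLLX T hT2 u ξ hξ0 hξ2
    have k3 := hSHX T hT3 u hu' (hclean u hu) ξ hξ0 hξ2
    have e : (∑ j ∈ mains f 1 D' T, LX f β ξ (Real.log T) j u) -
        ∑ j ∈ mains f 1 D T, KX f Y β ξ (Real.log T) j u =
        (KR f Y β ξ (Real.log T) u - ∑ j ∈ mains f 1 D T, KX f Y β ξ (Real.log T) j u) -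
        (KR f Y β ξ (Real.log T) u - LR f β ξ (Real.log T) u) -
        (LR f β ξ (Real.log T) u - ∑ j ∈ mains f 1 D' T, LX f β ξ (Real.log T) j u) := by ring
    rw [e]
    have k4 := norm_sub_le ((KR f Y β ξ (Real.log T) u -
      ∑ j ∈ mains f 1 D T, KX f Y β ξ (Real.log T) j u) -
        (KR f Y β ξ (Real.log T) u - LR f β ξ (Real.log T) u))
      (LR f β ξ (Real.log T) u - ∑ j ∈ mains f 1 D' T, LX f β ξ (Real.log T) j u)
    have k5 := norm_sub_le (KR f Y β ξ (Real.log T) u -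
      ∑ j ∈ mains f 1 D T, KX f Y β ξ (Real.log T) j u)
        (KR f Y β ξ (Real.log T) u - LR f β ξ (Real.log T) u)
    linarith
  have hfinal := compare (a := 5 * T / 4) (b := 7 * T / 4) (by linarith)
    (w := fun u : ℝ => (om ((u - 5 * T / 4) / (T / 2)) : ℂ))
    (SK := fun u => ∑ j ∈ mains f 1 D T, KX f Y β ξ (Real.log T) j u)
    (SL := fun u => ∑ j ∈ mains f 1 D' T, LX f β ξ (Real.log T) j u)
    (P := TP X ρ) cw.continuousOn (continuousOn_finsetSum _ fun j _ => cK j)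
    (continuousOn_finsetSum _ fun j _ => cL j) cP hGm hG
    (δ := 3 * T ^ (-(1 / 2) : ℝ)) (Q := (X : ℝ) ^ (1 / 2 : ℝ)) (A₁ := T ^ (1 - c / 2) / 16)
    (A₂ := T ^ (1 - c / 2) / 16) (A₃ := T ^ (1 - c / 2) / 16)
    (by positivity) (by positivity) (by
      intro u hu
      rw [Complex.norm_real, Real.norm_eq_abs]
      apply abs_om_le
      · apply div_nonneg _ (by linarith)
        linarith [hu.1]
      · rw [div_le_one (by linarith)]
        linarith [hu.2]) hclose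
    (fun u _ => norm_TP_le X ρ hXpos hρ u) (by rw [← hE]; exact hA1) (by rw [← hE]; exact hA2) hA3
  -- the error on the clean heights
  have herr : 3 * T ^ (-(1 / 2) : ℝ) * (X : ℝ) ^ (1 / 2 : ℝ) * (7 * T / 4 - 5 * T / 4) ≤
      T ^ (1 - c / 2) / 16 := by
    refine le_trans ?_ (hT₁₁ T hT11)
    have k1 : (X : ℝ) ^ (1 / 2 : ℝ) ≤ T ^ (1 / 4 : ℝ) := by
      calc (X : ℝ) ^ (1 / 2 : ℝ) ≤ (T ^ x₂) ^ (1 / 2 : ℝ) :=
            Real.rpow_le_rpow hXpos.le hX2 (by norm_num)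
        _ = T ^ (x₂ * (1 / 2)) := by rw [← Real.rpow_mul hT0.le]
        _ ≤ T ^ (1 / 4 : ℝ) := Real.rpow_le_rpow_of_exponent_le hT1' (by linarith)
    have k2 : T ^ (-(1 / 2) : ℝ) * T ^ (1 / 4 : ℝ) * T = T ^ (3 / 4 : ℝ) := by
      nth_rw 3 [← Real.rpow_one T]
      rw [← Real.rpow_add hT0, ← Real.rpow_add hT0]
      norm_num
    have k3 : T ^ (3 / 4 : ℝ) ≤ T ^ (1 - c) :=
      Real.rpow_le_rpow_of_exponent_le hT1' (by linarith)
    have k4 : 0 < T ^ (-(1 / 2) : ℝ) := Real.rpow_pos_of_pos hT0 _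
    calc 3 * T ^ (-(1 / 2) : ℝ) * (X : ℝ) ^ (1 / 2 : ℝ) * (7 * T / 4 - 5 * T / 4)
        ≤ 3 * T ^ (-(1 / 2) : ℝ) * T ^ (1 / 4 : ℝ) * (7 * T / 4 - 5 * T / 4) := by
          have : 0 ≤ 7 * T / 4 - 5 * T / 4 := by linarith
          gcongr
      _ = 3 / 2 * (T ^ (-(1 / 2) : ℝ) * T ^ (1 / 4 : ℝ) * T) := by ring
      _ = 3 / 2 * T ^ (3 / 4 : ℝ) := by rw [k2]
      _ ≤ 3 * Real.log T ^ (1 : ℝ) * T ^ (1 - c) := by
          rw [Real.rpow_one]
          nlinarith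
  have hlast := hlow.trans (hfinal.trans (add_le_add (add_le_add le_rfl herr) le_rfl))
  linarith

end Pool.Agent.H69.DP
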