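import Pool.Agent.H31.DP.Targets

/-!
# Row T1 of the board dpt_modules: the minor arcs for the Liouville function
-/

set_option autoImplicit false

open Finset Filter Topology

namespace Pool.Agent.H69.DP

open Pool.Agent.H31.DP
open Pool.Agent.H91.LF (lz Bdd Mean sqw)
open Pool.Agent.H24.T2 (Pset box cub)

private theorem minor_mono {K K' N : ℕ} {θ : ℝ} (h : Minor K N θ) (hK : K' ≤ K) :
    Minor K' N θ := by
  intro q h1 h2 a
  exact le_trans (by exact_mod_cast hK) (h q h1 (h2.trans hK) a)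

/-- the blocks of the quotients -/
private theorem blocks (P : ℕ) (hP : 0 < P) (A B : Finset ℕ) (hA : ∀ N ∈ A, 0 < N)
    (h : ∀ N ∈ A, ∀ M : ℕ, M / P = N → M ∈ B) :
    ∑ N ∈ A, (1 / (N : ℝ)) ≤ 2 * ∑ M ∈ B, (1 / (M : ℝ)) := by
  have hdj : Set.PairwiseDisjoint (A : Set ℕ) (fun N => Finset.Ico (P * N) (P * N + P)) := by
    intro N _ N' _ hne
    rw [Function.onFun, Finset.disjoint_left]
    intro M h1 h2
    rw [Finset.mem_Ico] at h1 h2
    apply hne
    have e1 : M / P = N := Nat.div_eq_of_lt_le (by rw [mul_comm]; exact h1.1)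
      (by rw [Nat.succ_mul, mul_comm N P]; exact h1.2)
    have e2 : M / P = N' := Nat.div_eq_of_lt_le (by rw [mul_comm]; exact h2.1)
      (by rw [Nat.succ_mul, mul_comm N' P]; exact h2.2)
    rw [← e1, ← e2]
  have hsub : A.biUnion (fun N => Finset.Ico (P * N) (P * N + P)) ⊆ B := by
    intro M hM
    rw [Finset.mem_biUnion] at hM
    obtain ⟨N, hN, h1⟩ := hM
    rw [Finset.mem_Ico] at h1
    exact h N hN M (Nat.div_eq_of_lt_le (by rw [mul_comm]; exact h1.1)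
      (by rw [Nat.succ_mul, mul_comm N P]; exact h1.2))
  have h1 : ∑ N ∈ A, ∑ M ∈ Finset.Ico (P * N) (P * N + P), (1 / (M : ℝ)) ≤
      ∑ M ∈ B, (1 / (M : ℝ)) := by
    rw [← Finset.sum_biUnion hdj]
    exact Finset.sum_le_sum_of_subset_of_nonneg hsub (fun _ _ _ => by positivity)
  have h2 : ∑ N ∈ A, (1 / (N : ℝ)) ≤
      2 * ∑ N ∈ A, ∑ M ∈ Finset.Ico (P * N) (P * N + P), (1 / (M : ℝ)) := by
    rw [Finset.mul_sum]
    refine Finset.sum_le_sum fun N hN => ?_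
    have hN0 : 0 < N := hA N hN
    have hN1 : (1 : ℝ) ≤ N := by exact_mod_cast hN0
    have hP1 : (0 : ℝ) < P := by exact_mod_cast hP
    have h3 : ∑ _M ∈ Finset.Ico (P * N) (P * N + P), (1 / ((P : ℝ) * (2 * N))) ≤
        ∑ M ∈ Finset.Ico (P * N) (P * N + P), (1 / (M : ℝ)) := by
      refine Finset.sum_le_sum fun M hM => ?_
      rw [Finset.mem_Ico] at hM
      have hM0 : 0 < M := lt_of_lt_of_le (Nat.mul_pos hP hN0) hM.1
      have hM1 : (M : ℝ) ≤ P * N + P := by exact_mod_cast hM.2.le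
      refine one_div_le_one_div_of_le (by exact_mod_cast hM0) (hM1.trans ?_)
      nlinarith
    rw [Finset.sum_const, Nat.card_Ico, Nat.add_sub_cancel_left, nsmul_eq_mul] at h3
    have h4 : (P : ℝ) * (1 / ((P : ℝ) * (2 * N))) = 1 / (2 * N) := by
      field_simp
    rw [h4] at h3
    have h5 : 1 / (N : ℝ) = 2 * (1 / (2 * N)) := by
      field_simp
    rw [h5]
    linarith
  linarith

theorem pf_T1 (hMK : StatementMK) (hSS : StatementSS) : StatementT1 := by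
  classical
  intro l h ε ρ hε hρ
  obtain ⟨c₀, hc₀, hMK⟩ := hMK
  set ε' : ℝ := min ε 1 with hε'
  have hε'0 : 0 < ε' := lt_min hε one_pos
  obtain ⟨θ, hθ, m₀, hSS⟩ := hSS l h ε' c₀ hε'0 (min_le_right _ _) hc₀
  obtain ⟨m₁, K₁, hMK⟩ := hMK l h θ (ρ / 8) m₀ hθ (by positivity)
  -- the constants of the single scales
  have hQ : ∀ m : ℕ, ∃ K : ℕ, ∀ K' : ℕ, K ≤ K' → m₀ ≤ m →
      c₀ * 2 ^ m / m ≤ ((Pset 1 m).card : ℝ) →
      ∃ P : ℕ, 0 < P ∧ P ≤ 2 ^ (m + 1) ∧ ∀ M N : ℕ, K' ≤ N → M / P = N →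
        ∑ p ∈ Pset 1 m, DD h p M ≤ θ * (Pset 1 m).card * (M : ℝ) ^ 3 →
        ∀ ϑ : ℝ, Minor K' N ϑ → ‖Sg h N ϑ‖ ≤ ε' * N := by
    intro m
    by_cases hm : m₀ ≤ m ∧ c₀ * 2 ^ m / m ≤ ((Pset 1 m).card : ℝ)
    · obtain ⟨P, hP, hP2, K, hK⟩ := hSS m hm.1 hm.2
      exact ⟨K, fun K' hK' _ _ => ⟨P, hP, hP2, fun M N hN hMN hD ϑ hϑ =>
        hK M N (hK'.trans hN) hMN hD ϑ (minor_mono hϑ hK')⟩⟩
    · exact ⟨0, fun K' _ h1 h2 => absurd ⟨h1, h2⟩ hm⟩
  choose Kf hKf using hQ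
  set K₂ : ℕ := (Finset.range (m₁ + 1)).sup Kf with hK₂
  set K : ℕ := max (max K₁ K₂) (max (2 ^ (m₁ + 2)) ⌈Real.exp (2 * K₂ / ρ)⌉₊) with hK
  refine ⟨K, fun x y hx hxy => ?_⟩
  have hK1 : K₁ ≤ K := (le_max_left _ _).trans (le_max_left _ _)
  have hK2 : K₂ ≤ K := (le_max_right _ _).trans (le_max_left _ _)
  have hK3 : 2 ^ (m₁ + 2) ≤ K := (le_max_left _ _).trans (le_max_right _ _)
  have hK4' : ⌈Real.exp (2 * K₂ / ρ)⌉₊ ≤ K := (le_max_right _ _).trans (le_max_right _ _)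
  have hK4 : Real.exp (2 * K₂ / ρ) ≤ K := (Nat.le_ceil _).trans (Nat.cast_le.2 hK4')
  have hK0 : 0 < K := lt_of_lt_of_le (by positivity) hK3
  have hy : 0 < y := lt_of_lt_of_le (Nat.mul_pos hK0 hx) hxy
  have hx' : (0 : ℝ) < x := by exact_mod_cast hx
  have hy' : (0 : ℝ) < y := by exact_mod_cast hy
  have hlog : Real.log K ≤ Real.log ((y : ℝ) / x) := by
    apply Real.log_le_log (by exact_mod_cast hK0)
    rw [le_div_iff₀ hx']
    exact_mod_cast hxy
  have hlog1 : (m₁ + 2 : ℕ) * Real.log 2 ≤ Real.log ((y : ℝ) / x) := by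
    refine le_trans ?_ hlog
    rw [← Real.log_pow]
    apply Real.log_le_log (by positivity)
    exact_mod_cast hK3
  have hlog2 : 2 * (K₂ : ℝ) / ρ ≤ Real.log ((y : ℝ) / x) := by
    refine le_trans ?_ hlog
    rw [Real.le_log_iff_exp_le (by exact_mod_cast hK0)]
    exact hK4
  -- the larger range
  have hyy : y ≤ 2 ^ (m₁ + 2) * y := Nat.le_mul_of_pos_left y (by positivity)
  obtain ⟨m, hm0, hm1, hmc, hbad⟩ := hMK x (2 ^ (m₁ + 2) * y) hx
    (((Nat.mul_le_mul_right x hK1).trans hxy).trans hyy)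
  have hKm : Kf m ≤ K₂ := Finset.le_sup (f := Kf) (Finset.mem_range.2 (by omega))
  obtain ⟨P, hP, hP2, hPs⟩ := hKf m K₂ hKm hm0 hmc
  have hlog3 : Real.log (((2 ^ (m₁ + 2) * y : ℕ) : ℝ) / x) ≤ 2 * Real.log ((y : ℝ) / x) := by
    have e1 : ((2 ^ (m₁ + 2) * y : ℕ) : ℝ) / x = 2 ^ (m₁ + 2) * ((y : ℝ) / x) := by
      push_cast
      ring
    rw [e1, Real.log_mul (by positivity) (by positivity), Real.log_pow]
    linarith
  -- the bad numbers
  set A : Finset ℕ := (Finset.Icc x y).filter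
    (fun N : ℕ => ∃ θ : ℝ, Minor K N θ ∧ ε * N < ‖Sg h N θ‖) with hA
  rw [← Finset.sum_filter_add_sum_filter_not A (fun N => N < K₂)]
  have h1 : ∑ N ∈ A with N < K₂, (1 / (N : ℝ)) ≤ ρ / 2 * Real.log ((y : ℝ) / x) := by
    calc ∑ N ∈ A with N < K₂, (1 / (N : ℝ)) ≤ ∑ N ∈ Finset.range K₂, (1 : ℝ) := by
          refine (Finset.sum_le_sum_of_subset_of_nonneg (t := Finset.range K₂) ?_
            (fun _ _ _ => by positivity)).trans (Finset.sum_le_sum fun N _ => ?_)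
          · intro N hN
            rw [Finset.mem_filter] at hN
            exact Finset.mem_range.2 hN.2
          · rcases Nat.eq_zero_or_pos N with h0 | h0
            · rw [h0]
              norm_num
            · rw [div_le_one (by exact_mod_cast h0)]
              exact_mod_cast h0
      _ = K₂ := by rw [Finset.sum_const, Finset.card_range, nsmul_eq_mul, mul_one]
      _ = ρ / 2 * (2 * (K₂ : ℝ) / ρ) := by field_simp
      _ ≤ _ := mul_le_mul_of_nonneg_left hlog2 (by positivity)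
  have h2 : ∑ N ∈ A with ¬ N < K₂, (1 / (N : ℝ)) ≤ ρ / 2 * Real.log ((y : ℝ) / x) := by
    refine (blocks P hP _ ((Finset.Icc x (2 ^ (m₁ + 2) * y)).filter (fun M : ℕ =>
      θ * (Pset 1 m).card * (M : ℝ) ^ 3 < ∑ p ∈ Pset 1 m, DD h p M)) ?_ ?_).trans ?_
    · intro N hN
      rw [Finset.mem_filter, hA, Finset.mem_filter, Finset.mem_Icc] at hN
      omega
    · intro N hN M hM
      rw [Finset.mem_filter, hA, Finset.mem_filter, Finset.mem_Icc, not_lt] at hN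
      obtain ⟨⟨⟨hN1, hN2⟩, ϑ, hϑ1, hϑ2⟩, hN3⟩ := hN
      have hMlo : P * N ≤ M := by
        rw [← hM]
        exact Nat.mul_div_le M P
      have hMup : M < P * (N + 1) := by
        rw [← hM]
        exact Nat.lt_mul_div_succ M hP
      rw [Finset.mem_filter, Finset.mem_Icc]
      refine ⟨⟨hN1.trans ((Nat.le_mul_of_pos_left N hP).trans hMlo), ?_⟩, ?_⟩
      · have h3 : P * (N + 1) ≤ 2 ^ (m + 1) * (2 * y) := by
          apply Nat.mul_le_mul hP2
          omega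
        have h4 : 2 ^ (m + 1) * (2 * y) ≤ 2 ^ (m₁ + 2) * y := by
          have h5 : 2 ^ (m + 1) ≤ 2 ^ (m₁ + 1) := Nat.pow_le_pow_right (by norm_num) (by omega)
          calc 2 ^ (m + 1) * (2 * y) ≤ 2 ^ (m₁ + 1) * (2 * y) := Nat.mul_le_mul_right _ h5
            _ = 2 ^ (m₁ + 2) * y := by ring
        omega
      · by_contra hc
        rw [not_lt] at hc
        have h3 := hPs M N hN3 hM hc ϑ (minor_mono hϑ1 hK2)
        have h4 : ε' * N ≤ ε * N := mul_le_mul_of_nonneg_right (min_le_left _ _)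
          (Nat.cast_nonneg N)
        linarith
    · have h3 : 2 * (ρ / 8 * Real.log (((2 ^ (m₁ + 2) * y : ℕ) : ℝ) / x)) ≤
          ρ / 2 * Real.log ((y : ℝ) / x) := by
        have h4 := mul_le_mul_of_nonneg_left hlog3 (show 0 ≤ ρ / 4 by positivity)
        linarith
      refine le_trans ?_ h3
      linarith
  linarith

end Pool.Agent.H69.DP
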